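import Pool.Agent.Helper78.DT.Goals3
import Pool.Agent.Helper78.LM.As1

/-!
# Brute force for a bounded number of coins (packet DT-BRU)
-/

namespace Pool.Agent.Helper40.DT

open Pool.Agent.Helper81.CC Pool.Agent.Helper78.DT
open scoped Classical

/-- The binary digits as coins. -/
def bt (i j : ℕ) : Bool := decide (dg 2 i j = 1)

/-- Binary digits give a bijection. -/
def eqv (n : ℕ) : Fin (2 ^ n) ≃ (Fin n → Bool) :=
  (finFunctionFinEquiv (m := 2) (n := n)).symm.trans (Equiv.arrowCongr (Equiv.refl _) finTwoEquiv)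

theorem eqv_apply (n : ℕ) (i : Fin (2 ^ n)) (j : Fin n) : eqv n i j = bt i j := by
  have h : (((finFunctionFinEquiv (m := 2) (n := n)).symm i j : Fin 2) : ℕ) =
      (i : ℕ) / 2 ^ (j : ℕ) % 2 := finFunctionFinEquiv_symm_apply_val i j
  have h2 : eqv n i j = finTwoEquiv ((finFunctionFinEquiv (m := 2) (n := n)).symm i j) := rfl
  rw [h2]
  unfold bt dg
  rw [← h]
  generalize (finFunctionFinEquiv (m := 2) (n := n)).symm i j = k
  fin_cases k <;> decide

theorem cf_eqv (n : ℕ) (i : Fin (2 ^ n)) : cf (eqv n i) = cut n (bt i) := by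
  funext j
  unfold cf cut
  by_cases h : j < n
  · rw [dif_pos h, eqv_apply]; simp [h]
  · rw [dif_neg h]; simp [h]

theorem filter_length (N : ℕ) (p : ℕ → Bool) :
    ((List.range N).filter p).length = Nat.card {i : Fin N // p i = true} := by
  classical
  rw [Nat.card_eq_fintype_card, Fintype.card_subtype]
  have h1 : ((List.range N).filter p).length =
      ((Finset.range N).filter fun i => p i = true).card := by
    rw [← List.toFinset_range, ← List.toFinset_filter, List.toFinset_card_of_nodup]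
    exact List.Nodup.filter _ List.nodup_range
  rw [h1]
  symm
  refine Finset.card_bij (fun i _ => (i : ℕ)) ?_ ?_ ?_
  · intro a ha
    simp only [Finset.mem_filter, Finset.mem_univ, true_and] at ha
    simp only [Finset.mem_filter, Finset.mem_range]
    exact ⟨a.2, ha⟩
  · intro a _ b _ hab
    exact Fin.ext hab
  · intro b hb
    simp only [Finset.mem_filter, Finset.mem_range] at hb
    exact ⟨⟨b, hb.1⟩, by simpa using hb.2, rfl⟩

/-- The number of the accepting coin strings among the digit strings. -/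
theorem count_eq (hRes : ResStmt) {α : Type} [ToData α] (A : Machine α) (x : α) :
    ((List.range (2 ^ A.m x)).filter fun i =>
      res A x (A.w x) 0 0 (fun _ => 0) (cut (A.m x) (bt i))).length = A.acc x := by
  rw [filter_length]
  unfold Machine.acc
  refine Nat.card_congr (Equiv.subtypeEquiv (eqv (A.m x)) fun i => ?_)
  rw [← hRes α A x (A.w x) 0 (fun _ => 0) (eqv (A.m x) i) le_rfl, cf_eqv]

theorem arith (f N K g : ℕ) (hK : 0 < K) (hg : 0 < g) (hf : f = (2 * g * N + K) / (2 * K)) :
    |(f : ℝ) / (g : ℝ) - (N : ℝ) / (K : ℝ)| ≤ 1 / (g : ℝ) := by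
  have hK' : (0 : ℝ) < K := by exact_mod_cast hK
  have hg' : (0 : ℝ) < g := by exact_mod_cast hg
  have h1 : f * (2 * K) ≤ 2 * g * N + K := by rw [hf]; exact Nat.div_mul_le_self _ _
  have h2 : 2 * g * N + K < (f + 1) * (2 * K) := by
    rw [hf]
    have h3 := Nat.div_add_mod (2 * g * N + K) (2 * K)
    have h4 := Nat.mod_lt (2 * g * N + K) (show 0 < 2 * K by omega)
    nlinarith
  have h1' : (f : ℝ) * (2 * K) ≤ 2 * g * N + K := by exact_mod_cast h1
  have h2' : (2 : ℝ) * g * N + K < (f + 1) * (2 * K) := by exact_mod_cast h2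
  have e : (f : ℝ) / (g : ℝ) - (N : ℝ) / (K : ℝ) = (f - g * N / K) / g := by
    field_simp
  rw [e, abs_div, abs_of_pos hg']
  refine div_le_div_of_nonneg_right ?_ hg'.le
  rw [abs_le]
  have e2 : (g : ℝ) * N / K * K = g * N := div_mul_cancel₀ _ hK'.ne'
  constructor
  · by_contra hc
    push Not at hc
    have : ((f : ℝ) - g * N / K) * K < -1 * K := mul_lt_mul_of_pos_right hc hK'
    nlinarith
  · by_contra hc
    push Not at hc
    have : (1 : ℝ) * K < ((f : ℝ) - g * N / K) * K := mul_lt_mul_of_pos_right hc hK'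
    nlinarith

theorem bru (hRes : ResStmt) (hPtr : PtrStmt) (hPtl : PtlStmt) (hPtn : PtnStmt)
    (_hDig : DigStmt) : BruStmt := by
  intro α _ A s c M hs
  have hm : PolyTime A.m := Pool.Agent.Helper78.LM.PT_of_comp A.m_poly
  have hw : PolyTime A.w := Pool.Agent.Helper78.LM.PT_of_comp A.w_poly
  have hn : PolyTime (fun x : α => min (A.m x) M) := by fun_prop
  have hpow : PolyTime (fun x : α => 2 ^ (min (A.m x) M)) :=
    (hPtl α (fun _ => 2 ^ M) (fun x => min (A.m x) M) (fun _ => 2) (PolyTime.const _) hn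
      (PolyTime.const _)).2.2.2.2 fun a => Nat.pow_le_pow_right (by norm_num) (min_le_right _ _)
  have hlg : PolyTime (fun x : α => lg (s x)) :=
    (hPtl α s s s hs hs hs).1
  have hlgc : PolyTime (fun x : α => lg (s x) ^ c) := PolyTime.pow hlg c
  have hbt : PolyTime (fun z : (α × ℕ) × ℕ => bt z.1.2 z.2) := by
    have h1 : PolyTime (fun z : (α × ℕ) × ℕ => dg 2 z.1.2 z.2) :=
      (hPtn ((α × ℕ) × ℕ)).2 (fun _ => 2) (fun z => z.1.2) (fun z => z.2) (PolyTime.const _)
        (by fun_prop) (by fun_prop)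
    unfold bt
    fun_prop
  have hcut : PolyTime (fun z : (α × ℕ) × ℕ => cut (A.m z.1.1) (bt z.1.2) z.2) := by
    have h1 : PolyTime (fun z : (α × ℕ) × ℕ => A.m z.1.1) :=
      PolyTime.comp hm (by fun_prop)
    unfold cut
    exact PolyTime.and (PolyTime.decide_lt (by fun_prop) h1) hbt
  have hres : PolyTime (fun z : α × ℕ =>
      res A z.1 (A.w z.1) 0 0 (fun _ => 0) (cut (A.m z.1) (bt z.2))) :=
    hPtr α A (α × ℕ) (fun z => z.1) (fun z => A.w z.1) (fun _ => 0) (fun _ => 0)
      (fun _ _ => 0) (fun z => cut (A.m z.1) (bt z.2)) (by fun_prop)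
      (PolyTime.comp hw (by fun_prop)) (PolyTime.const _) (PolyTime.const _) (PolyTime.const _)
      hcut
  have hcount : PolyTime (fun x : α => ((List.range (2 ^ (min (A.m x) M))).filter fun i =>
      res A x (A.w x) 0 0 (fun _ => 0) (cut (A.m x) (bt i))).length) :=
    PolyTime.length (PolyTime.filter (PolyTime.range hpow) hres)
  refine ⟨fun x => (2 * lg (s x) ^ c * ((List.range (2 ^ (min (A.m x) M))).filter fun i =>
      res A x (A.w x) 0 0 (fun _ => 0) (cut (A.m x) (bt i))).length +
      2 ^ (min (A.m x) M)) / (2 * 2 ^ (min (A.m x) M)), ?_, ?_⟩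
  · exact PolyTime.div (PolyTime.add (PolyTime.mul (PolyTime.mul (PolyTime.const _) hlgc) hcount)
      hpow) (PolyTime.mul (PolyTime.const _) hpow)
  · intro x hx
    have hmin : min (A.m x) M = A.m x := min_eq_left hx
    have h := arith ((2 * lg (s x) ^ c * A.acc x + 2 ^ A.m x) / (2 * 2 ^ A.m x)) (A.acc x)
      (2 ^ A.m x) (lg (s x) ^ c) (by positivity) (pow_pos (by unfold lg; omega) c) rfl
    simp only [hmin]
    rw [count_eq hRes A x]
    push_cast at h ⊢
    exact h

end Pool.Agent.Helper40.DT
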